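import Pool.Agent.H10.UDP.FRMb
import Pool.Agent.H16.HK.GS
import Pool.Agent.H16.HK.PS

/-!
# Expansion of test functions (row FRM), part C: the Fourier series of the pieces
-/

set_option autoImplicit false

open MeasureTheory SchwartzMap Filter Topology
open scoped ENNReal ContDiff FourierTransform InnerProductSpace

namespace Pool.Agent.H10.UDP

open Pool.Agent.H43.DPC (V S SD trans pm chi lat cell box T_LAT)
open Pool.Agent.H16.HK (per pr Ft Ft_pr Ft_cont coeff_eq ch mFourier_pr summable_pi)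

variable {d : ℕ}

/-- a bump on the line -/
noncomputable def bump1 : ContDiffBump (0 : ℝ) := ⟨1 / 4, 3 / 8, by norm_num, by norm_num⟩

theorem bump1_one {s : ℝ} (hs : |s| ≤ 1 / 4) : bump1 s = 1 := by
  refine bump1.one_of_mem_closedBall ?_
  rw [mem_closedBall_zero_iff, Real.norm_eq_abs]
  exact hs

theorem bump1_supp {s : ℝ} (hs : bump1 s ≠ 0) : |s| < 3 / 8 := by
  have h : s ∈ Function.support bump1 := hs
  rw [bump1.support_eq, mem_ball_zero_iff, Real.norm_eq_abs] at h
  exact h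

/-- the plateau function -/
noncomputable def chit (d : ℕ) (x : V d) : ℝ := ∏ j, bump1 (x j)

theorem chit_smooth : ContDiff ℝ ∞ (chit d) := by
  unfold chit
  refine contDiff_prod fun j _ => ?_
  exact bump1.contDiff.comp (EuclideanSpace.proj (𝕜 := ℝ) j : V d →L[ℝ] ℝ).contDiff

theorem chit_one {x : V d} (hx : ∀ j, |x j| ≤ 1 / 4) : chit d x = 1 :=
  Finset.prod_eq_one fun j _ => bump1_one (hx j)

theorem chit_supp {x : V d} (hx : chit d x ≠ 0) (j : Fin d) : |x j| < 3 / 8 :=
  bump1_supp (Finset.prod_ne_zero_iff.1 hx j (Finset.mem_univ j))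

theorem chit_compact : HasCompactSupport (chit d) := by
  refine HasCompactSupport.of_support_subset_isCompact
    (isCompact_closedBall (0 : V d) (Real.sqrt d * (3 / 8))) fun x hx => ?_
  rw [mem_closedBall_zero_iff]
  exact norm_le_sqrt (fun j => (chit_supp hx j).le) (by norm_num)

/-- the frequencies -/
noncomputable def lj (j : Fin d → ℤ) : V d →L[ℝ] ℝ := (2 * Real.pi) • innerSL ℝ (lat j)

theorem lj_apply (j : Fin d → ℤ) (x : V d) :
    lj j x = 2 * Real.pi * ∑ i, (j i : ℝ) * x i := by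
  have h1 : lj j x = 2 * Real.pi * ⟪lat j, x⟫_ℝ := rfl
  rw [h1, PiLp.inner_apply]
  congr 1
  refine Finset.sum_congr rfl fun i _ => ?_
  rw [real_inner_comm]
  rfl

theorem lj_norm (j : Fin d → ℤ) : ‖lj j‖ ≤ 7 * ‖lat j‖ := by
  unfold lj
  rw [norm_smul, innerSL_apply_norm, Real.norm_eq_abs, abs_of_pos (by positivity)]
  refine mul_le_mul_of_nonneg_right ?_ (norm_nonneg _)
  linarith [Real.pi_lt_d2]

/-- the pieces on the coordinate space -/
noncomputable def Fc (k : Fin d → ℤ) (f : S d) (y : Fin d → ℝ) : ℂ := Fk k f (WithLp.toLp 2 y)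

theorem Fc_cont (hL : T_LAT) (k : Fin d → ℤ) (f : S d) : Continuous (Fc k f) :=
  (Fk_smooth hL k f).continuous.comp (PiLp.continuous_toLp 2 _)

theorem Fk_supp (hL : T_LAT) {k : Fin d → ℤ} {f : S d} {x : V d} (hx : Fk k f x ≠ 0)
    (j : Fin d) : |x j - vk k j| ≤ 1 / 4 := by
  have h1 : cell t₀ k x ≠ 0 := by
    intro h
    apply hx
    unfold Fk
    rw [h, zero_mul, Complex.ofReal_zero]
  have h2 := hL.tsupport d t₀ t₀_pos k x (subset_tsupport _ h1) j
  rw [vk_apply]
  rw [t₀_eq] at h2 ⊢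
  exact h2

theorem Fk_compact (hL : T_LAT) (k : Fin d → ℤ) (f : S d) : HasCompactSupport (Fk k f) := by
  refine (hL.compact d t₀ t₀_pos k).mono fun x hx h => hx ?_
  unfold Fk
  rw [h, zero_mul, Complex.ofReal_zero]

theorem Fc_integrable (hL : T_LAT) (k : Fin d → ℤ) (f : S d) : Integrable (Fc k f) := by
  have h1 : Integrable (Fk k f) :=
    (Fk_smooth hL k f).continuous.integrable_of_hasCompactSupport (Fk_compact hL k f)
  exact (PiLp.volume_preserving_toLp (Fin d)).integrable_comp_of_integrable h1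

theorem coef_eq (hL : T_LAT) {B : (Fin d → ℤ) → ℝ} (k : Fin d → ℤ) (f : S d)
    (hB : ∀ (m : Fin d → ℤ) (x : Fin d → ℝ), (∀ i, x i ∈ Set.Icc (0 : ℝ) 1) →
      ‖Fc k f (fun i => x i + m i)‖ ≤ B m) (hs : Summable B) (j : Fin d → ℤ) :
    UnitAddTorus.mFourierCoeff (Ft (Fc k f)) j = 𝓕 (Fk k f) (lat j) := by
  rw [coeff_eq (Fc_cont hL k f) hB hs (Fc_integrable hL k f) j, Real.fourier_eq']
  have h1 := (PiLp.volume_preserving_toLp (Fin d)).integral_comp
    (MeasurableEquiv.toLp 2 (Fin d → ℝ)).measurableEmbedding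
    (fun v : V d => Complex.exp ((↑(-2 * Real.pi * ⟪v, lat j⟫_ℝ) * Complex.I)) • Fk k f v)
  rw [← h1]
  refine integral_congr_ae (Eventually.of_forall fun y => ?_)
  change ch j y * Fc k f y = _ • Fk k f (WithLp.toLp 2 y)
  rw [smul_eq_mul]
  unfold ch Fc
  congr 3
  rw [PiLp.inner_apply]
  push_cast
  have h2 : ∀ i, ((⟪(WithLp.toLp 2 y : V d) i, lat j i⟫_ℝ : ℝ) : ℂ) = (j i : ℂ) * y i := by
    intro i
    have : ⟪(WithLp.toLp 2 y : V d) i, lat j i⟫_ℝ = (j i : ℝ) * y i := rfl
    rw [this]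
    push_cast
    rfl
  rw [Finset.sum_congr rfl fun i _ => h2 i]
  ring

/-- the weights of the lattice points -/
noncomputable def wt (k : Fin d → ℤ) : ℝ := ((1 + ‖lat k‖) ^ (2 * d))⁻¹

theorem wt_pos (k : Fin d → ℤ) : 0 < wt k := by
  unfold wt
  positivity

theorem wt_summable : Summable (wt (d := d)) := by
  have h1 : Summable fun n : ℤ => ((1 + |(n : ℝ)|) ^ 2)⁻¹ := by
    have h2 : Summable fun n : ℕ => ((1 + (n : ℝ)) ^ 2)⁻¹ := by
      have := (summable_nat_add_iff 1).2 (Real.summable_one_div_nat_pow.2 one_lt_two)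
      refine this.congr fun n => ?_
      push_cast
      rw [one_div, add_comm]
    refine Summable.of_nat_of_neg ?_ ?_
    · refine h2.congr fun n => ?_
      push_cast
      rw [abs_of_nonneg (Nat.cast_nonneg n)]
    · refine h2.congr fun n => ?_
      push_cast
      rw [abs_neg, abs_of_nonneg (Nat.cast_nonneg n)]
  have h3 := summable_pi (ι := Fin d) (fun n : ℤ => ((1 + |(n : ℝ)|) ^ 2)⁻¹)
    (fun n => by positivity) h1
  refine Summable.of_nonneg_of_le (fun k => (wt_pos k).le) (fun k => ?_) h3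
  unfold wt
  rw [Finset.prod_inv_distrib]
  refine inv_anti₀ (Finset.prod_pos fun i _ => by positivity) ?_
  calc ∏ i, (1 + |(k i : ℝ)|) ^ 2 ≤ ∏ _i : Fin d, (1 + ‖lat k‖) ^ 2 := by
        refine Finset.prod_le_prod (fun i _ => by positivity) fun i _ => ?_
        have h4 : |(k i : ℝ)| ≤ ‖lat k‖ := by
          have := PiLp.norm_apply_le (lat k) i
          rwa [Real.norm_eq_abs] at this
        gcongr
    _ = (1 + ‖lat k‖) ^ (2 * d) := by
        rw [Finset.prod_const, Finset.card_univ, Fintype.card_fin, ← pow_mul]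

/-- the Fourier series of a piece -/
theorem expand (hL : T_LAT) (k : Fin d → ℤ) (f : S d) (x : V d)
    (hx : ∀ j, |x j - vk k j| < 1 / 2) :
    HasSum (fun j : Fin d → ℤ => 𝓕 (Fk k f) (lat j) * Complex.exp ((lj j x : ℝ) * Complex.I))
      (Fk k f x) := by
  classical
  obtain ⟨C, hC⟩ := (Fk_compact hL k f).exists_bound_of_continuous (Fk_smooth hL k f).continuous
  set E : Finset (Fin d → ℤ) := Fintype.piFinset fun j =>
    Finset.Icc ⌊vk k j - 2⌋ ⌈vk k j + 1⌉ with hE
  set B : (Fin d → ℤ) → ℝ := fun m => if m ∈ E then max C 0 else 0 with hBd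
  have hB : ∀ (m : Fin d → ℤ) (x : Fin d → ℝ), (∀ i, x i ∈ Set.Icc (0 : ℝ) 1) →
      ‖Fc k f (fun i => x i + m i)‖ ≤ B m := by
    intro m y hy
    by_cases h0 : Fc k f (fun i => y i + m i) = 0
    · rw [h0, norm_zero, hBd]
      dsimp only
      split_ifs
      · exact le_max_right _ _
      · exact le_rfl
    · have h1 : m ∈ E := by
        rw [hE, Fintype.mem_piFinset]
        intro j
        have h2 := abs_le.1 (Fk_supp hL h0 j)
        have h3 := hy j
        have h4 : (WithLp.toLp 2 (fun i => y i + (m i : ℝ)) : V d) j = y j + m j := rfl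
        rw [h4] at h2
        rw [Finset.mem_Icc]
        constructor
        · have h5 : (⌊vk k j - 2⌋ : ℝ) ≤ m j := (Int.floor_le _).trans (by linarith [h3.2])
          exact_mod_cast h5
        · have h5 : (m j : ℝ) ≤ ⌈vk k j + 1⌉ := le_trans (by linarith [h3.1]) (Int.le_ceil _)
          exact_mod_cast h5
      rw [hBd]
      dsimp only
      rw [if_pos h1]
      exact (hC _).trans (le_max_left _ _)
  have hs : Summable B := summable_of_ne_finset_zero (s := E) fun m hm => if_neg hm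
  have hcoef := coef_eq hL k f hB hs
  let F : C(UnitAddTorus (Fin d), ℂ) := ⟨Ft (Fc k f), Ft_cont (Fc_cont hL k f) hB hs⟩
  obtain ⟨A, M, hA, hb⟩ := coef_bound (d := d) hL (2 * d)
  have hFs : Summable (UnitAddTorus.mFourierCoeff F) := by
    have h1 : Summable fun j : Fin d → ℤ => A * pm M f * wt j := wt_summable.mul_left _
    refine Summable.of_norm_bounded h1 fun j => ?_
    have h2 : UnitAddTorus.mFourierCoeff F j = 𝓕 (Fk k f) (lat j) := hcoef j
    rw [h2]
    have h3 := hb k f (lat j)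
    have h4 : (1 : ℝ) ≤ (1 + ‖lat k‖) ^ (2 * d) := one_le_pow₀ (by linarith [norm_nonneg (lat k)])
    unfold wt
    rw [← div_eq_mul_inv, le_div_iff₀ (by positivity)]
    calc ‖𝓕 (Fk k f) (lat j)‖ * (1 + ‖lat j‖) ^ (2 * d) =
          1 * ((1 + ‖lat j‖) ^ (2 * d) * ‖𝓕 (Fk k f) (lat j)‖) := by ring
      _ ≤ (1 + ‖lat k‖) ^ (2 * d) * ((1 + ‖lat j‖) ^ (2 * d) * ‖𝓕 (Fk k f) (lat j)‖) :=
          mul_le_mul_of_nonneg_right h4 (by positivity)
      _ ≤ _ := h3
  have hsum := UnitAddTorus.hasSum_mFourier_series_apply_of_summable hFs (pr (fun i => x i))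
  have h0 : F (pr (fun i => x i)) = Fk k f x := by
    change Ft (Fc k f) (pr (fun i => x i)) = _
    rw [Ft_pr]
    unfold per
    rw [tsum_eq_single (0 : Fin d → ℤ)]
    · simp only [Pi.zero_apply, Int.cast_zero, add_zero]
      rfl
    · intro m hm
      by_contra hne
      obtain ⟨j, hj⟩ := Function.ne_iff.1 hm
      have h2 := Fk_supp hL hne j
      have h4 : (WithLp.toLp 2 (fun i => x i + (m i : ℝ)) : V d) j = x j + m j := rfl
      rw [h4] at h2
      have h5 : (1 : ℝ) ≤ |(m j : ℝ)| := by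
        have : (1 : ℤ) ≤ |m j| := Int.one_le_abs hj
        exact_mod_cast this
      have h6 := hx j
      have h7 : |(m j : ℝ)| ≤ |x j + m j - vk k j| + |x j - vk k j| := by
        have : (m j : ℝ) = (x j + m j - vk k j) - (x j - vk k j) := by ring
        calc |(m j : ℝ)| = |(x j + m j - vk k j) - (x j - vk k j)| := by rw [← this]
          _ ≤ _ := abs_sub _ _
      linarith
  rw [h0] at hsum
  have e1 : ∀ j : Fin d → ℤ, UnitAddTorus.mFourierCoeff F j •
      UnitAddTorus.mFourier j (pr (fun i => x i)) =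
      𝓕 (Fk k f) (lat j) * Complex.exp ((lj j x : ℝ) * Complex.I) := by
    intro j
    have e2 : UnitAddTorus.mFourierCoeff F j = 𝓕 (Fk k f) (lat j) := hcoef j
    have e3 := mFourier_pr (-j) (fun i => x i)
    rw [neg_neg] at e3
    rw [e2, e3, smul_eq_mul]
    unfold ch
    rw [lj_apply]
    congr 3
    push_cast
    simp only [Pi.neg_apply, Int.cast_neg, neg_mul, Finset.sum_neg_distrib, mul_neg, neg_neg]
  have e4 := funext e1
  rw [e4] at hsum
  exact hsum

end Pool.Agent.H10.UDP
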