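import Pool.Agent.H29.UDP.TPro
import Pool.Agent.H15.DPC.LAT
import Pool.Agent.H10.UDP.FRMc

/-!
# Expansion of test functions (row FRM)
-/

set_option autoImplicit false

open MeasureTheory SchwartzMap Filter Topology
open scoped ENNReal ContDiff FourierTransform InnerProductSpace

namespace Pool.Agent.H10.UDP

open Pool.Agent.H43.DPC (V S SD trans pm chi lat cell box T_LAT)
open Pool.Agent.H29.UDP (T_FRM T_PMC)

variable {d : ℕ}

/-- the coefficients of a piece -/
noncomputable def bt (k : Fin d → ℤ) (f : S d) (j : Fin d → ℤ) : ℂ :=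
  𝓕 (Fk k f) (lat j) * Complex.exp ((lj j (vk k) : ℝ) * Complex.I)

theorem bt_norm (k : Fin d → ℤ) (f : S d) (j : Fin d → ℤ) : ‖bt k f j‖ = ‖𝓕 (Fk k f) (lat j)‖ := by
  unfold bt
  rw [norm_mul, Complex.norm_exp_ofReal_mul_I, mul_one]

theorem re_term (b : ℂ) (s t : ℝ) : (b * Complex.exp (((s + t : ℝ) : ℂ) * Complex.I)).re =
    (b * Complex.exp ((s : ℂ) * Complex.I)).re * Real.cos t -
      (b * Complex.exp ((s : ℂ) * Complex.I)).im * Real.sin t := by
  have h1 : b * Complex.exp (((s + t : ℝ) : ℂ) * Complex.I) =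
      b * Complex.exp ((s : ℂ) * Complex.I) * Complex.exp ((t : ℂ) * Complex.I) := by
    rw [mul_assoc, ← Complex.exp_add]
    congr 2
    push_cast
    ring
  rw [h1, Complex.mul_re (b * Complex.exp ((s : ℂ) * Complex.I)), Complex.exp_ofReal_mul_I_re,
    Complex.exp_ofReal_mul_I_im]

/-- the real Fourier series of a piece -/
theorem expand_real (hL : T_LAT) (k : Fin d → ℤ) (f : S d) (x : V d) :
    HasSum (fun j : Fin d → ℤ => (bt k f j).re * (chit d (x - vk k) *
      Real.cos (lj j (x - vk k))) + -(bt k f j).im * (chit d (x - vk k) *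
      Real.sin (lj j (x - vk k)))) (cell t₀ k x * f x) := by
  by_cases h0 : chit d (x - vk k) = 0
  · have h1 : Fk k f x = 0 := by
      by_contra hne
      rw [chit_one fun j => Fk_supp hL hne j] at h0
      exact one_ne_zero h0
    have h2 : cell t₀ k x * f x = 0 := Complex.ofReal_eq_zero.1 h1
    rw [h0, h2]
    simp only [zero_mul, mul_zero, add_zero]
    exact hasSum_zero
  · have h1 := expand hL k f x fun j => (chit_supp h0 j).trans (by norm_num)
    have h2 := Complex.hasSum_re h1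
    have h3 := h2.mul_left (chit d (x - vk k))
    have h4 : chit d (x - vk k) * (Fk k f x).re = cell t₀ k x * f x := by
      have h5 : (Fk k f x).re = cell t₀ k x * f x := Complex.ofReal_re _
      rw [h5]
      by_cases h6 : Fk k f x = 0
      · have h7 : cell t₀ k x * f x = 0 := Complex.ofReal_eq_zero.1 h6
        rw [h7, mul_zero]
      · rw [chit_one fun j => Fk_supp hL h6 j, one_mul]
    rw [h4] at h3
    have e1 : ∀ j : Fin d → ℤ, chit d (x - vk k) *
        (𝓕 (Fk k f) (lat j) * Complex.exp ((lj j x : ℝ) * Complex.I)).re =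
        (bt k f j).re * (chit d (x - vk k) *
      Real.cos (lj j (x - vk k))) + -(bt k f j).im * (chit d (x - vk k) *
      Real.sin (lj j (x - vk k))) := by
      intro j
      have e2 : lj j x = lj j (vk k) + lj j (x - vk k) := by
        rw [← map_add, add_sub_cancel]
      rw [e2, re_term]
      unfold bt
      ring
    have e3 := funext e1
    rw [e3] at h3
    exact h3

theorem sum_cell (hL : T_LAT) (x : V d) : ∑' k : Fin d → ℤ, cell t₀ k x = 1 := by
  obtain ⟨R, hR⟩ : ∃ R : ℕ, ∀ j, |x j| + 1 ≤ R := by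
    obtain ⟨R, hR⟩ := exists_nat_ge (∑ j, |x j| + 1)
    refine ⟨R, fun j => le_trans ?_ hR⟩
    have := Finset.single_le_sum (f := fun j => |x j|) (fun j _ => abs_nonneg _)
      (Finset.mem_univ j)
    linarith
  rw [tsum_eq_sum (s := box d (R * (3 + 1)))]
  · exact hL.sum_eq_one d 3 R x fun j => by linarith [hR j]
  · intro k hk
    by_contra hne
    apply hk
    have h1 := hL.tsupport d t₀ t₀_pos k x (subset_tsupport _ hne)
    unfold box
    rw [Fintype.mem_piFinset]
    intro j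
    have h2 := abs_le.1 (h1 j)
    have h3 := abs_le.1 (le_refl |x j|)
    have h4 := hR j
    rw [t₀_eq] at h2
    rw [Finset.mem_Icc]
    constructor
    · have h5 : (-((R * (3 + 1) : ℕ) : ℝ)) ≤ k j := by
        push_cast
        linarith [h2.1, h2.2, h3.1, h3.2]
      exact_mod_cast h5
    · have h5 : (k j : ℝ) ≤ ((R * (3 + 1) : ℕ) : ℝ) := by
        push_cast
        linarith [h2.1, h2.2, h3.1, h3.2]
      exact_mod_cast h5

/-- the weights of the natural numbers -/
noncomputable def un (n : ℕ) : ℝ := 2 * (1 / 2) ^ n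

theorem un_pos (n : ℕ) : 0 < un n := by
  unfold un
  positivity

theorem un_summable : Summable un :=
  (summable_geometric_of_lt_one (by norm_num) (by norm_num)).mul_left 2

/-- the index set -/
abbrev Ix (d : ℕ) : Type := (Fin d → ℤ) × ((Fin d → ℤ) × ℕ)

/-- the coefficients -/
noncomputable def co (f : S d) (i : Ix d) : ℝ :=
  match i.2.2 with
  | 0 => (bt i.1 f i.2.1).re
  | 1 => -(bt i.1 f i.2.1).im
  | _ => 0

/-- the functions -/
noncomputable def hf (cs sn : (V d →L[ℝ] ℝ) → S d) (i : Ix d) : S d :=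
  match i.2.2 with
  | 0 => trans (vk i.1) (cs (lj i.2.1))
  | 1 => trans (vk i.1) (sn (lj i.2.1))
  | _ => 0

theorem co_le (f : S d) (k j : Fin d → ℤ) (n : ℕ) :
    |co f (k, j, n)| ≤ ‖𝓕 (Fk k f) (lat j)‖ := by
  rw [← bt_norm]
  match n with
  | 0 => exact Complex.abs_re_le_norm _
  | 1 =>
    change |-(bt k f j).im| ≤ _
    rw [abs_neg]
    exact Complex.abs_im_le_norm _
  | (n + 2) =>
    change |(0 : ℝ)| ≤ _
    rw [abs_zero]
    exact norm_nonneg _

theorem co_zero (f : S d) (k j : Fin d → ℤ) (n : ℕ) : co f (k, j, n + 2) = 0 := rfl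

theorem vk_norm (k : Fin d → ℤ) : ‖vk k‖ ≤ ‖lat k‖ := by
  unfold vk
  rw [norm_smul, t₀_eq, Real.norm_eq_abs, abs_of_pos (by norm_num)]
  linarith [norm_nonneg (lat k)]

theorem hf_le {cs sn : (V d →L[ℝ] ℝ) → S d} {m : ℕ} {C : ℝ} (hC : 0 ≤ C)
    (hcs : ∀ l, pm m (cs l) ≤ C * (1 + ‖l‖) ^ m) (hsn : ∀ l, pm m (sn l) ≤ C * (1 + ‖l‖) ^ m)
    (k j : Fin d → ℤ) (n : ℕ) : pm m (hf cs sn (k, j, n)) ≤
      2 ^ m * C * 7 ^ m * ((1 + ‖lat k‖) ^ m * (1 + ‖lat j‖) ^ m) := by
  have h1 : ∀ g : S d, pm m g ≤ C * (1 + ‖lj j‖) ^ m →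
      pm m (trans (vk k) g) ≤ 2 ^ m * C * 7 ^ m * ((1 + ‖lat k‖) ^ m * (1 + ‖lat j‖) ^ m) := by
    intro g hg
    have h2 : (1 + ‖lj j‖) ^ m ≤ (7 * (1 + ‖lat j‖)) ^ m := by
      refine pow_le_pow_left₀ (by positivity) ?_ m
      have := lj_norm j
      linarith
    have h3 : (1 + ‖vk k‖) ^ m ≤ (1 + ‖lat k‖) ^ m := by
      refine pow_le_pow_left₀ (by positivity) ?_ m
      have := vk_norm k
      linarith
    calc pm m (trans (vk k) g) ≤ (1 + ‖vk k‖) ^ m * (2 ^ m * pm m g) := pm_trans m _ g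
      _ ≤ (1 + ‖lat k‖) ^ m * (2 ^ m * (C * (7 * (1 + ‖lat j‖)) ^ m)) := by
          refine mul_le_mul h3 ?_ (mul_nonneg (by positivity) (pm_nonneg m g)) (by positivity)
          refine mul_le_mul_of_nonneg_left (hg.trans ?_) (by positivity)
          exact mul_le_mul_of_nonneg_left h2 hC
      _ = _ := by
          rw [mul_pow]
          ring
  match n with
  | 0 => exact h1 _ (hcs _)
  | 1 => exact h1 _ (hsn _)
  | (n + 2) =>
    have h2 : pm m (hf cs sn (k, j, n + 2)) = 0 := by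
      change pm m (0 : S d) = 0
      unfold pm
      exact map_zero _
    rw [h2]
    positivity

theorem one_le_un {n : ℕ} (hn : n < 2) : 1 ≤ un n := by
  unfold un
  have : n = 0 ∨ n = 1 := by omega
  rcases this with h | h
  · rw [h]; norm_num
  · rw [h]; norm_num

theorem ix_summable : Summable fun i : Ix d => wt i.1 * (wt i.2.1 * un i.2.2) := by
  have h1 : Summable fun p : (Fin d → ℤ) × ℕ => wt p.1 * un p.2 :=
    wt_summable.mul_of_nonneg un_summable (fun k => (wt_pos k).le) fun n => (un_pos n).le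
  exact wt_summable.mul_of_nonneg h1 (fun k => (wt_pos k).le) fun p =>
    mul_nonneg (wt_pos _).le (un_pos _).le

/-- (FRM) -/
theorem pf_FRM (hPMC : T_PMC) : T_FRM := by
  intro d m
  have hL : T_LAT := Pool.Agent.H43.DPC.LAT
  -- the waves
  have hwave := hPMC d (chit d) chit_smooth chit_compact
  obtain ⟨C0, hC0, h0⟩ := hwave 0
  choose cs sn hcs hsn _hx _hy using h0
  have hpm : ∀ m : ℕ, ∃ C : ℝ, 0 ≤ C ∧ (∀ l, pm m (cs l) ≤ C * (1 + ‖l‖) ^ m) ∧
      ∀ l, pm m (sn l) ≤ C * (1 + ‖l‖) ^ m := by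
    intro m
    obtain ⟨C, hC, h1⟩ := hwave m
    refine ⟨C, hC, fun l => ?_, fun l => ?_⟩
    · obtain ⟨f, g, hf, hg, hf2, hg2⟩ := h1 l
      have : cs l = f := by
        ext x
        rw [hcs, hf]
      rw [this]
      exact hf2
    · obtain ⟨f, g, hf, hg, hf2, hg2⟩ := h1 l
      have : sn l = g := by
        ext x
        rw [hsn, hg]
      rw [this]
      exact hg2
  choose C hC hC1 hC2 using hpm
  set H : Ix d → S d := hf cs sn with hH
  set D : ℕ → ℝ := fun N => 2 ^ N * C N * 7 ^ N with hD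
  have hD0 : ∀ N, 0 ≤ D N := fun N => by
    have := hC N
    rw [hD]
    positivity
  have hHb : ∀ (N : ℕ) (i : Ix d), pm N (H i) ≤
      D N * ((1 + ‖lat i.1‖) ^ N * (1 + ‖lat i.2.1‖) ^ N) := fun N i =>
    hf_le (hC N) (hC1 N) (hC2 N) i.1 i.2.1 i.2.2
  choose A M hA hcb using fun P => coef_bound (d := d) hL P
  set P : ℕ := m + 2 * d with hP
  set c : Ix d → ℝ := fun i => (A P + 1) * (((1 + ‖lat i.1‖) ^ P)⁻¹ *
    (((1 + ‖lat i.2.1‖) ^ P)⁻¹ * un i.2.2)) with hc
  have hc0 : ∀ i, 0 < c i := fun i => by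
    have h1 := hA P
    have h2 := un_pos i.2.2
    rw [hc]
    dsimp only
    positivity
  -- the coefficients
  have hco : ∀ (N : ℕ) (f : S d) (i : Ix d), |co f i| ≤ A N * pm (M N) f *
      (((1 + ‖lat i.1‖) ^ N)⁻¹ * (((1 + ‖lat i.2.1‖) ^ N)⁻¹ * un i.2.2)) := by
    intro N f i
    obtain ⟨k, j, n⟩ := i
    have h1 : 0 ≤ A N * pm (M N) f := mul_nonneg (hA N) (pm_nonneg _ _)
    by_cases hn : n < 2
    · have h2 := hcb N k f (lat j)
      have h3 := one_le_un hn
      have h4 := co_le f k j n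
      have h5 : 0 < (1 + ‖lat k‖) ^ N := by positivity
      have h6 : 0 < (1 + ‖lat j‖) ^ N := by positivity
      refine h4.trans ?_
      have h7 : ‖𝓕 (Fk k f) (lat j)‖ ≤ A N * pm (M N) f *
          (((1 + ‖lat k‖) ^ N)⁻¹ * ((1 + ‖lat j‖) ^ N)⁻¹) := by
        rw [← mul_inv, ← div_eq_mul_inv, le_div_iff₀ (by positivity)]
        calc _ = (1 + ‖lat k‖) ^ N * ((1 + ‖lat j‖) ^ N * ‖𝓕 (Fk k f) (lat j)‖) := by ring
          _ ≤ _ := h2
      refine h7.trans ?_
      refine mul_le_mul_of_nonneg_left ?_ h1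
      refine mul_le_mul_of_nonneg_left ?_ (by positivity)
      exact le_mul_of_one_le_right (by positivity) h3
    · obtain ⟨n', rfl⟩ : ∃ n', n = n' + 2 := ⟨n - 2, by omega⟩
      rw [co_zero, abs_zero]
      have := un_pos (n' + 2)
      positivity
  have hsplit : ∀ (N : ℕ) (i : Ix d), ((1 + ‖lat i.1‖) ^ (N + 2 * d))⁻¹ *
      (((1 + ‖lat i.2.1‖) ^ (N + 2 * d))⁻¹ * un i.2.2) *
        ((1 + ‖lat i.1‖) ^ N * (1 + ‖lat i.2.1‖) ^ N) = wt i.1 * (wt i.2.1 * un i.2.2) := by
    intro N i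
    unfold wt
    have h5 : (1 + ‖lat i.1‖) ^ N ≠ 0 := by positivity
    have h6 : (1 + ‖lat i.2.1‖) ^ N ≠ 0 := by positivity
    rw [pow_add, pow_add, mul_inv, mul_inv]
    field_simp
  have hsum : ∀ (f : S d) (N : ℕ), Summable fun i => pm N (co f i • H i) := by
    intro f N
    refine Summable.of_nonneg_of_le (fun i => pm_nonneg _ _) (fun i => ?_)
      ((ix_summable (d := d)).mul_left (A (N + 2 * d) * pm (M (N + 2 * d)) f * D N))
    rw [pm_smul]
    have h1 := hco (N + 2 * d) f i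
    have h2 := hHb N i
    calc |co f i| * pm N (H i) ≤ (A (N + 2 * d) * pm (M (N + 2 * d)) f *
          (((1 + ‖lat i.1‖) ^ (N + 2 * d))⁻¹ * (((1 + ‖lat i.2.1‖) ^ (N + 2 * d))⁻¹ *
            un i.2.2))) * (D N * ((1 + ‖lat i.1‖) ^ N * (1 + ‖lat i.2.1‖) ^ N)) :=
          mul_le_mul h1 h2 (pm_nonneg _ _) ((abs_nonneg _).trans h1)
      _ = A (N + 2 * d) * pm (M (N + 2 * d)) f * D N *
          (((1 + ‖lat i.1‖) ^ (N + 2 * d))⁻¹ * (((1 + ‖lat i.2.1‖) ^ (N + 2 * d))⁻¹ *
            un i.2.2) * ((1 + ‖lat i.1‖) ^ N * (1 + ‖lat i.2.1‖) ^ N)) := by ring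
      _ = _ := by rw [hsplit]
  -- the expansion
  have hexp : ∀ (f : S d) (x : V d), f x = ∑' i, (co f i • H i) x := by
    intro f x
    have h1 : Summable fun i => (co f i • H i) x := by
      refine Summable.of_norm_bounded ((hsum f 0).mul_left (2 ^ 0)) fun i => ?_
      rw [Real.norm_eq_abs]
      exact abs_apply_le _ x 0
    rw [h1.tsum_prod]
    have h2 : ∀ k : Fin d → ℤ, ∑' p : (Fin d → ℤ) × ℕ, (co f (k, p) • H (k, p)) x =
        cell t₀ k x * f x := by
      intro k
      have h3 : Summable fun p : (Fin d → ℤ) × ℕ => (co f (k, p) • H (k, p)) x :=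
        h1.prod_factor k
      rw [h3.tsum_prod, ← (expand_real hL k f x).tsum_eq]
      refine tsum_congr fun j => ?_
      rw [tsum_eq_sum (s := Finset.range 2)]
      · rw [Finset.sum_range_succ, Finset.sum_range_one]
        have e1 : (co f (k, j, 0) • H (k, j, 0)) x = (bt k f j).re * (chit d (x - vk k) *
            Real.cos (lj j (x - vk k))) := by
          rw [← hcs]
          rfl
        have e2 : (co f (k, j, 1) • H (k, j, 1)) x = -(bt k f j).im * (chit d (x - vk k) *
            Real.sin (lj j (x - vk k))) := by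
          rw [← hsn]
          rfl
        rw [e1, e2]
      · intro n hn
        rw [Finset.mem_range, not_lt] at hn
        obtain ⟨n', rfl⟩ : ∃ n', n = n' + 2 := ⟨n - 2, by omega⟩
        rw [co_zero, zero_smul]
        rfl
    rw [tsum_congr h2, tsum_mul_right, sum_cell hL, one_mul]
  -- the enumeration
  have hinf : Infinite (Ix d) := inferInstance
  obtain ⟨e⟩ : Nonempty (ℕ ≃ Ix d) := by
    obtain ⟨hden⟩ := nonempty_denumerable (Ix d)
    exact ⟨(Denumerable.eqv (Ix d)).symm⟩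
  refine ⟨fun n => H (e n), fun n => c (e n), M P, fun n => hc0 _, ?_, ?_⟩
  · have h1 : Summable fun i => c i * (1 + pm m (H i)) := by
      refine Summable.of_nonneg_of_le
        (fun i => mul_nonneg (hc0 i).le (add_nonneg zero_le_one (pm_nonneg _ _))) (fun i => ?_)
        ((ix_summable (d := d)).mul_left ((A P + 1) * (1 + D m)))
      have h2 := hHb m i
      have h3 : (1 : ℝ) ≤ (1 + ‖lat i.1‖) ^ m * (1 + ‖lat i.2.1‖) ^ m :=
        one_le_mul_of_one_le_of_one_le (one_le_pow₀ (by linarith [norm_nonneg (lat i.1)]))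
          (one_le_pow₀ (by linarith [norm_nonneg (lat i.2.1)]))
      have h4 : 1 + pm m (H i) ≤ (1 + D m) *
          ((1 + ‖lat i.1‖) ^ m * (1 + ‖lat i.2.1‖) ^ m) := by linarith
      calc c i * (1 + pm m (H i)) ≤ c i * ((1 + D m) *
            ((1 + ‖lat i.1‖) ^ m * (1 + ‖lat i.2.1‖) ^ m)) :=
            mul_le_mul_of_nonneg_left h4 (hc0 i).le
        _ = (A P + 1) * (1 + D m) * (((1 + ‖lat i.1‖) ^ (m + 2 * d))⁻¹ *
            (((1 + ‖lat i.2.1‖) ^ (m + 2 * d))⁻¹ * un i.2.2) *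
              ((1 + ‖lat i.1‖) ^ m * (1 + ‖lat i.2.1‖) ^ m)) := by
            rw [hc, hP]
            ring
        _ = _ := by rw [hsplit]
    exact e.summable_iff.2 h1
  · intro T f hT
    have hT' : Summable fun i => c i * |T (H i)| := e.summable_iff.1 hT
    have h1 := hasSum_dual (fun i => co f i • H i) f (hsum f) (hexp f) T
    have h2 : ∑' n, c (e n) * |T (H (e n))| = ∑' i, c i * |T (H i)| :=
      e.tsum_eq fun i => c i * |T (H i)|
    rw [h2, ← h1.tsum_eq, ← tsum_mul_left]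
    have h3 : ∀ i, ‖T (co f i • H i)‖ ≤ pm (M P) f * (c i * |T (H i)|) := by
      intro i
      rw [map_smul, norm_smul, Real.norm_eq_abs, Real.norm_eq_abs]
      have h4 := hco P f i
      have h5 : |co f i| ≤ c i * pm (M P) f := by
        refine h4.trans ?_
        rw [hc]
        dsimp only
        have h6 := pm_nonneg (M P) f
        have h7 := un_pos i.2.2
        have h8 : 0 ≤ pm (M P) f * (((1 + ‖lat i.1‖) ^ P)⁻¹ *
          (((1 + ‖lat i.2.1‖) ^ P)⁻¹ * un i.2.2)) := by positivity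
        linarith [h8]
      calc |co f i| * |T (H i)| ≤ c i * pm (M P) f * |T (H i)| :=
            mul_le_mul_of_nonneg_right h5 (abs_nonneg _)
        _ = _ := by ring
    have h4 : Summable fun i => pm (M P) f * (c i * |T (H i)|) := hT'.mul_left _
    have h5 : Summable fun i => ‖T (co f i • H i)‖ :=
      Summable.of_nonneg_of_le (fun i => norm_nonneg _) h3 h4
    calc |∑' i, T (co f i • H i)| ≤ ∑' i, ‖T (co f i • H i)‖ := norm_tsum_le_tsum_norm h5
      _ ≤ _ := h5.tsum_le_tsum h3 h4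

end Pool.Agent.H10.UDP
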