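import Pool.Agent.H43.DPC.Targets

/-!
# Expansion of test functions (row FRM), part A: seminorms and series
-/

set_option autoImplicit false

open MeasureTheory SchwartzMap Filter Topology
open scoped ENNReal ContDiff

namespace Pool.Agent.H10.UDP

open Pool.Agent.H43.DPC (V S SD trans pm chi lat cell box T_LAT)

variable {d : ℕ}

theorem pm_nonneg (m : ℕ) (f : S d) : 0 ≤ pm m f := apply_nonneg _ _

theorem pm_apply (m : ℕ) (f : S d) :
    pm m f = ((Finset.Iic (m, m)).sup fun m : ℕ × ℕ => SchwartzMap.seminorm ℝ m.1 m.2) f := rfl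

theorem one_add_pm {k n m : ℕ} (hk : k ≤ m) (hn : n ≤ m) (f : S d) (x : V d) :
    (1 + ‖x‖) ^ k * ‖iteratedFDeriv ℝ n f x‖ ≤ 2 ^ m * pm m f :=
  one_add_le_sup_seminorm_apply (𝕜 := ℝ) (m := (m, m)) hk hn f x

theorem semi_le_pm {k n m : ℕ} (hk : k ≤ m) (hn : n ≤ m) (f : S d) :
    SchwartzMap.seminorm ℝ k n f ≤ pm m f := by
  have h : (k, n) ∈ Finset.Iic (m, m) := Finset.mem_Iic.2 ⟨hk, hn⟩
  exact Seminorm.le_finset_sup_apply
    (p := fun m : ℕ × ℕ => (SchwartzMap.seminorm ℝ m.1 m.2 : Seminorm ℝ (S d))) h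

theorem pm_le {m : ℕ} {f : S d} {C : ℝ} (hC : 0 ≤ C)
    (h : ∀ k ≤ m, ∀ n ≤ m, ∀ x, ‖x‖ ^ k * ‖iteratedFDeriv ℝ n f x‖ ≤ C) : pm m f ≤ C := by
  rw [pm_apply]
  refine Seminorm.finset_sup_apply_le hC fun i hi => ?_
  rw [Finset.mem_Iic] at hi
  exact SchwartzMap.seminorm_le_bound ℝ i.1 i.2 f hC fun x => h i.1 hi.1 i.2 hi.2 x

theorem pm_smul (m : ℕ) (a : ℝ) (f : S d) : pm m (a • f) = |a| * pm m f := by
  rw [pm_apply, pm_apply, map_smul_eq_mul, Real.norm_eq_abs]

theorem abs_apply_le (f : S d) (x : V d) (m : ℕ) : |f x| ≤ 2 ^ m * pm m f := by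
  have h := one_add_pm (k := 0) (n := 0) (Nat.zero_le m) (Nat.zero_le m) f x
  rwa [pow_zero, one_mul, norm_iteratedFDeriv_zero, Real.norm_eq_abs] at h

/-- translation -/
theorem pm_trans (m : ℕ) (v : V d) (f : S d) :
    pm m (trans v f) ≤ (1 + ‖v‖) ^ m * (2 ^ m * pm m f) := by
  refine pm_le (mul_nonneg (by positivity) (mul_nonneg (by positivity) (pm_nonneg m f)))
    fun k hk n hn x => ?_
  have h1 : ((trans v f : S d) : V d → ℝ) = fun y => f (y - v) := by
    funext y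
    rfl
  rw [h1, iteratedFDeriv_comp_sub]
  have h2 : ‖x‖ ≤ (1 + ‖v‖) * (1 + ‖x - v‖) := by
    have : ‖x‖ ≤ ‖x - v‖ + ‖v‖ := by
      calc ‖x‖ = ‖(x - v) + v‖ := by rw [sub_add_cancel]
        _ ≤ _ := norm_add_le _ _
    nlinarith [norm_nonneg v, norm_nonneg (x - v)]
  calc ‖x‖ ^ k * ‖iteratedFDeriv ℝ n f (x - v)‖ ≤
        ((1 + ‖v‖) * (1 + ‖x - v‖)) ^ k * ‖iteratedFDeriv ℝ n f (x - v)‖ := by
        gcongr
    _ = (1 + ‖v‖) ^ k * ((1 + ‖x - v‖) ^ k * ‖iteratedFDeriv ℝ n f (x - v)‖) := by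
        rw [mul_pow]
        ring
    _ ≤ (1 + ‖v‖) ^ m * (2 ^ m * pm m f) := by
        refine mul_le_mul ?_ (one_add_pm hk hn f _) (by positivity) (by positivity)
        exact pow_le_pow_right₀ (by linarith [norm_nonneg v]) hk

/-- continuity of a functional -/
theorem dual_bound (T : SD d) : ∃ (C : ℝ) (m : ℕ), 0 ≤ C ∧ ∀ f : S d, |T f| ≤ C * pm m f := by
  set q : Seminorm ℝ (S d) := (normSeminorm ℝ ℝ).comp (WeakDual.toStrongDual T).toLinearMap with hq
  have hcont : Continuous q := by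
    have h1 : Continuous fun f : S d => ‖(WeakDual.toStrongDual T) f‖ :=
      continuous_norm.comp (WeakDual.toStrongDual T).continuous
    exact h1
  obtain ⟨s, C, -, hs⟩ := Seminorm.bound_of_continuous (schwartz_withSeminorms ℝ (V d) ℝ) q hcont
  obtain ⟨m, hm⟩ : ∃ m : ℕ, ∀ i ∈ s, i ≤ (m, m) := by
    refine ⟨s.sup (fun i => max i.1 i.2), fun i hi => ?_⟩
    have := Finset.le_sup (f := fun i : ℕ × ℕ => max i.1 i.2) hi
    exact ⟨(le_max_left _ _).trans this, (le_max_right _ _).trans this⟩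
  refine ⟨C, m, C.2, fun f => ?_⟩
  have h1 : |T f| = q f := rfl
  rw [h1]
  refine (hs f).trans ?_
  have h2 : (s.sup (schwartzSeminormFamily ℝ (V d) ℝ)) f ≤ pm m f := by
    have h3 : s.sup (schwartzSeminormFamily ℝ (V d) ℝ) ≤
        (Finset.Iic (m, m)).sup (schwartzSeminormFamily ℝ (V d) ℝ) :=
      Finset.sup_mono fun i hi => Finset.mem_Iic.2 (hm i hi)
    exact h3 f
  exact mul_le_mul_of_nonneg_left h2 C.2

/-- series in the space of test functions -/
theorem hasSum_dual {ι : Type} (g : ι → S d) (f : S d)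
    (hs : ∀ m : ℕ, Summable fun i => pm m (g i)) (hf : ∀ x, f x = ∑' i, g i x) (T : SD d) :
    HasSum (fun i => T (g i)) (T f) := by
  classical
  obtain ⟨C, m, hC, hT⟩ := dual_bound T
  -- derivatives
  have hd : ∀ n : ℕ, ∀ x, Summable (fun i => iteratedFDeriv ℝ n (g i) x) ∧
      iteratedFDeriv ℝ n f x = ∑' i, iteratedFDeriv ℝ n (g i) x := by
    intro n x
    have hb : ∀ (k : ℕ) (i : ι) (x : V d), ‖iteratedFDeriv ℝ k (g i) x‖ ≤ 2 ^ k * pm k (g i) := by
      intro k i x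
      have := one_add_pm (k := 0) (Nat.zero_le k) le_rfl (g i) x
      rwa [pow_zero, one_mul] at this
    have hsk : ∀ k : ℕ, Summable fun i => (2 : ℝ) ^ k * pm k (g i) := fun k => (hs k).mul_left _
    constructor
    · exact Summable.of_norm_bounded (hsk n) fun i => hb n i x
    · have h1 : (f : V d → ℝ) = fun y => ∑' i, g i y := funext hf
      rw [h1]
      exact iteratedFDeriv_tsum_apply (N := ⊤) (v := fun k i => (2 : ℝ) ^ k * pm k (g i))
        (fun i => (g i).smooth ⊤) (fun k _ => hsk k) (fun k i x _ => hb k i x) le_top x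
  -- the tail
  have htail : ∀ s : Finset ι, pm m (f - ∑ i ∈ s, g i) ≤ ∑' i : {i // i ∉ s}, pm m (g i) := by
    intro s
    refine pm_le (tsum_nonneg fun i => pm_nonneg m _) fun k hk n hn x => ?_
    obtain ⟨h1, h2⟩ := hd n x
    have h3 : iteratedFDeriv ℝ n (f - ∑ i ∈ s, g i : S d) x =
        ∑' i : {i // i ∉ s}, iteratedFDeriv ℝ n (g i) x := by
      have e1 : ((f - ∑ i ∈ s, g i : S d) : V d → ℝ) = (f : V d → ℝ) - ∑ i ∈ s, (g i : V d → ℝ) := by
        funext y
        rw [sub_apply, sum_apply, Pi.sub_apply, Finset.sum_apply]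
      have e2 : (∑ i ∈ s, (g i : V d → ℝ)) = fun y => ∑ i ∈ s, g i y := by
        funext y
        rw [Finset.sum_apply]
      rw [e1, e2, iteratedFDeriv_sub (f.smooth n) (ContDiff.sum fun i _ => (g i).smooth n),
        Pi.sub_apply, iteratedFDeriv_sum fun i _ => (g i).smooth n, h2]
      rw [← h1.sum_add_tsum_compl (s := s)]
      rw [Finset.sum_apply, add_sub_cancel_left]
      rfl
    have h4 : Summable fun i : {i // i ∉ s} => ‖iteratedFDeriv ℝ n (g i) x‖ := by
      refine Summable.of_nonneg_of_le (fun i => norm_nonneg _) (fun i => ?_)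
        (((hs m).mul_left (2 ^ m)).subtype {i | i ∉ s})
      have := one_add_pm (k := 0) (Nat.zero_le m) hn (g i) x
      rwa [pow_zero, one_mul] at this
    rw [h3]
    calc ‖x‖ ^ k * ‖∑' i : {i // i ∉ s}, iteratedFDeriv ℝ n (g i) x‖ ≤
          ‖x‖ ^ k * ∑' i : {i // i ∉ s}, ‖iteratedFDeriv ℝ n (g i) x‖ := by
          gcongr
          exact norm_tsum_le_tsum_norm h4
      _ = ∑' i : {i // i ∉ s}, ‖x‖ ^ k * ‖iteratedFDeriv ℝ n (g i) x‖ := by
          rw [tsum_mul_left]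
      _ ≤ ∑' i : {i // i ∉ s}, pm m (g i) := by
          refine (h4.mul_left _).tsum_le_tsum (fun i => ?_) ((hs m).subtype {i | i ∉ s})
          exact (SchwartzMap.le_seminorm ℝ k n (g i) x).trans (semi_le_pm hk hn (g i))
  have hlim := tendsto_tsum_compl_atTop_zero fun i => pm m (g i)
  have hlim2 : Tendsto (fun s : Finset ι => C * ∑' i : {i // i ∉ s}, pm m (g i)) atTop (𝓝 0) := by
    have := hlim.const_mul C
    rwa [mul_zero] at this
  rw [HasSum, tendsto_iff_dist_tendsto_zero]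
  refine squeeze_zero (fun s => dist_nonneg) (fun s => ?_) hlim2
  rw [dist_comm, Real.dist_eq]
  have h5 : T f - ∑ i ∈ s, T (g i) = T (f - ∑ i ∈ s, g i) := by
    rw [map_sub, map_sum]
  rw [h5]
  exact (hT _).trans (mul_le_mul_of_nonneg_left (htail s) hC)

end Pool.Agent.H10.UDP
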