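import Pool.Agent.H10.UDP.FRMa

/-!
# Expansion of test functions (row FRM), part B: the pieces and their Fourier transforms
-/

set_option autoImplicit false

open MeasureTheory SchwartzMap Filter Topology
open scoped ENNReal ContDiff FourierTransform

namespace Pool.Agent.H10.UDP

open Pool.Agent.H43.DPC (V S SD trans pm chi lat cell box T_LAT)

variable {d : ℕ}

/-- the side of the cells -/
noncomputable def t₀ : ℝ := (((3 : ℕ) : ℝ) + 1)⁻¹

theorem t₀_eq : t₀ = 1 / 4 := by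
  unfold t₀
  norm_num

theorem t₀_pos : 0 < t₀ := by
  rw [t₀_eq]
  norm_num

theorem lat_zero : lat (0 : Fin d → ℤ) = 0 := by
  unfold lat
  ext j
  simp

/-- the centre of a cell -/
noncomputable def vk (k : Fin d → ℤ) : V d := t₀ • lat k

theorem vk_apply (k : Fin d → ℤ) (j : Fin d) : vk k j = t₀ * k j := rfl

theorem cell_eq (k : Fin d → ℤ) (x : V d) : cell t₀ k x = cell t₀ 0 (x - vk k) := by
  unfold cell
  refine congrArg _ ?_
  rw [lat_zero, sub_zero, smul_sub]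
  unfold vk
  rw [smul_smul, inv_mul_cancel₀ t₀_pos.ne', one_smul]

theorem pm_mono {m n : ℕ} (h : m ≤ n) (f : S d) : pm m f ≤ pm n f := by
  refine pm_le (pm_nonneg n f) fun k hk l hl x => ?_
  exact (SchwartzMap.le_seminorm ℝ k l f x).trans (semi_le_pm (hk.trans h) (hl.trans h) f)

theorem cell_bound (hL : T_LAT) (q : ℕ) : ∃ A : ℝ, 0 ≤ A ∧ ∀ (k : Fin d → ℤ) (x : V d),
    ‖iteratedFDeriv ℝ q (cell t₀ k) x‖ ≤ A := by
  have h1 := (hL.compact d t₀ t₀_pos 0).iteratedFDeriv (𝕜 := ℝ) q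
  have h2 : Continuous (iteratedFDeriv ℝ q (cell t₀ (0 : Fin d → ℤ))) :=
    (hL.contDiff d t₀ 0).continuous_iteratedFDeriv (by exact_mod_cast le_top)
  obtain ⟨C, hC⟩ := h1.exists_bound_of_continuous h2
  refine ⟨max C 0, le_max_right _ _, fun k x => ?_⟩
  have h3 : cell t₀ k = fun y : V d => cell t₀ 0 (y - vk k) := funext (cell_eq k)
  rw [h3, iteratedFDeriv_comp_sub]
  exact (hC _).trans (le_max_left _ _)

theorem norm_le_sqrt {v : V d} {c : ℝ} (h : ∀ j, |v j| ≤ c) (hc : 0 ≤ c) :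
    ‖v‖ ≤ Real.sqrt d * c := by
  rw [EuclideanSpace.norm_eq]
  have h1 : ∑ i, ‖v i‖ ^ 2 ≤ d * c ^ 2 := by
    calc ∑ i, ‖v i‖ ^ 2 ≤ ∑ _i : Fin d, c ^ 2 := by
          refine Finset.sum_le_sum fun i _ => ?_
          rw [Real.norm_eq_abs]
          exact pow_le_pow_left₀ (abs_nonneg _) (h i) 2
      _ = d * c ^ 2 := by
          rw [Finset.sum_const, Finset.card_univ, Fintype.card_fin, nsmul_eq_mul]
  calc Real.sqrt (∑ i, ‖v i‖ ^ 2) ≤ Real.sqrt (d * c ^ 2) := Real.sqrt_le_sqrt h1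
    _ = Real.sqrt d * c := by
        rw [Real.sqrt_mul (Nat.cast_nonneg d), Real.sqrt_sq hc]

theorem lat_le (hL : T_LAT) (k : Fin d → ℤ) (x : V d) (hx : x ∈ tsupport (cell t₀ k)) :
    1 + ‖lat k‖ ≤ (4 + Real.sqrt d) * (1 + ‖x‖) := by
  have h1 := hL.tsupport d t₀ t₀_pos k x hx
  have h2 : ‖(4 : ℝ) • x - lat k‖ ≤ Real.sqrt d * 1 := by
    refine norm_le_sqrt (fun j => ?_) zero_le_one
    have h3 := h1 j
    rw [t₀_eq] at h3
    have h4 : ((4 : ℝ) • x - lat k) j = 4 * (x j - 1 / 4 * k j) := by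
      have : ((4 : ℝ) • x - lat k) j = 4 * x j - k j := rfl
      rw [this]
      ring
    rw [h4, abs_mul, abs_of_pos (by norm_num : (0 : ℝ) < 4)]
    linarith
  have h5 : ‖lat k‖ ≤ 4 * ‖x‖ + Real.sqrt d := by
    calc ‖lat k‖ = ‖(4 : ℝ) • x - ((4 : ℝ) • x - lat k)‖ := by rw [sub_sub_cancel]
      _ ≤ ‖(4 : ℝ) • x‖ + ‖(4 : ℝ) • x - lat k‖ := norm_sub_le _ _
      _ ≤ 4 * ‖x‖ + Real.sqrt d := by
          rw [norm_smul, Real.norm_eq_abs, abs_of_pos (by norm_num : (0 : ℝ) < 4)]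
          linarith
  nlinarith [norm_nonneg x, Real.sqrt_nonneg (d : ℝ), mul_nonneg (Real.sqrt_nonneg (d : ℝ))
    (norm_nonneg x)]

theorem prod_bound (hL : T_LAT) (P q : ℕ) : ∃ (A : ℝ) (M : ℕ), 0 ≤ A ∧
    ∀ (k : Fin d → ℤ) (f : S d) (x : V d), (1 + ‖lat k‖) ^ P *
      ((1 + ‖x‖) ^ (d + 1) * ‖iteratedFDeriv ℝ q (fun x => cell t₀ k x * f x) x‖) ≤
      A * pm M f := by
  choose A hA0 hA using fun i => cell_bound (d := d) hL i
  set M : ℕ := P + (d + 1) + q with hM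
  set B : ℝ := (4 + Real.sqrt d) ^ P * ∑ i ∈ Finset.range (q + 1), (q.choose i : ℝ) * A i * 2 ^ M
    with hB
  have hB0 : 0 ≤ B := by
    refine mul_nonneg (by positivity) (Finset.sum_nonneg fun i _ => ?_)
    have := hA0 i
    positivity
  refine ⟨B, M, hB0, fun k f x => ?_⟩
  by_cases hx : x ∈ tsupport (cell t₀ k)
  · have h1 := lat_le hL k x hx
    have h2 := norm_iteratedFDeriv_mul_le (N := ((⊤ : ℕ∞) : WithTop ℕ∞)) (hL.contDiff d t₀ k)
      (f.smooth ⊤) x (n := q) (by exact_mod_cast le_top)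
    have h3 : (1 + ‖lat k‖) ^ P ≤ (4 + Real.sqrt d) ^ P * (1 + ‖x‖) ^ P := by
      rw [← mul_pow]
      exact pow_le_pow_left₀ (by positivity) h1 P
    calc (1 + ‖lat k‖) ^ P *
          ((1 + ‖x‖) ^ (d + 1) * ‖iteratedFDeriv ℝ q (fun x => cell t₀ k x * f x) x‖) ≤
          (4 + Real.sqrt d) ^ P * (1 + ‖x‖) ^ P * ((1 + ‖x‖) ^ (d + 1) *
            ∑ i ∈ Finset.range (q + 1), (q.choose i : ℝ) * ‖iteratedFDeriv ℝ i (cell t₀ k) x‖ *
              ‖iteratedFDeriv ℝ (q - i) f x‖) := by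
          gcongr
      _ = (4 + Real.sqrt d) ^ P * ∑ i ∈ Finset.range (q + 1), (q.choose i : ℝ) *
            ‖iteratedFDeriv ℝ i (cell t₀ k) x‖ *
              ((1 + ‖x‖) ^ (P + (d + 1)) * ‖iteratedFDeriv ℝ (q - i) f x‖) := by
          rw [mul_assoc, Finset.mul_sum, Finset.mul_sum]
          congr 1
          refine Finset.sum_congr rfl fun i _ => ?_
          rw [pow_add]
          ring
      _ ≤ (4 + Real.sqrt d) ^ P * ∑ i ∈ Finset.range (q + 1), (q.choose i : ℝ) * A i *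
            (2 ^ M * pm M f) := by
          refine mul_le_mul_of_nonneg_left (Finset.sum_le_sum fun i _ => ?_) (by positivity)
          have e1 : (1 + ‖x‖) ^ (P + (d + 1)) * ‖iteratedFDeriv ℝ (q - i) f x‖ ≤
              2 ^ M * pm M f :=
            one_add_pm (by omega) ((Nat.sub_le q i).trans (by omega)) f x
          have e2 := hA0 i
          have e3 : (q.choose i : ℝ) * ‖iteratedFDeriv ℝ i (cell t₀ k) x‖ ≤
              (q.choose i : ℝ) * A i := mul_le_mul_of_nonneg_left (hA i k x) (by positivity)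
          exact mul_le_mul e3 e1 (by positivity) (by positivity)
      _ = B * pm M f := by
          rw [hB, mul_assoc, Finset.sum_mul]
          congr 1
          exact Finset.sum_congr rfl fun i _ => by ring
  · have h1 : iteratedFDeriv ℝ q (fun x => cell t₀ k x * f x) x = 0 := by
      by_contra hne
      have h2 := support_iteratedFDeriv_subset (𝕜 := ℝ) q (Function.mem_support.2 hne)
      exact hx (tsupport_mul_subset_left h2)
    rw [h1, norm_zero, mul_zero, mul_zero]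
    exact mul_nonneg hB0 (pm_nonneg M f)

/-- the pieces -/
noncomputable def Fk (k : Fin d → ℤ) (f : S d) (x : V d) : ℂ := ((cell t₀ k x * f x : ℝ) : ℂ)

theorem real_smooth (hL : T_LAT) (k : Fin d → ℤ) (f : S d) :
    ContDiff ℝ ∞ (fun x => cell t₀ k x * f x) := (hL.contDiff d t₀ k).mul (f.smooth ⊤)

theorem Fk_smooth (hL : T_LAT) (k : Fin d → ℤ) (f : S d) : ContDiff ℝ ∞ (Fk k f) :=
  Complex.ofRealCLM.contDiff.comp (real_smooth hL k f)

theorem Fk_norm (hL : T_LAT) (k : Fin d → ℤ) (f : S d) (q : ℕ) (x : V d) :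
    ‖iteratedFDeriv ℝ q (Fk k f) x‖ = ‖iteratedFDeriv ℝ q (fun x => cell t₀ k x * f x) x‖ :=
  Complex.ofRealLI.norm_iteratedFDeriv_comp_left (real_smooth hL k f).contDiffAt
    (by exact_mod_cast le_top)

theorem int_one_add : Integrable (fun x : V d => ((1 + ‖x‖) ^ (d + 1))⁻¹) := by
  have h := integrable_one_add_norm (E := V d) (μ := volume) (r := (d : ℝ) + 1)
    (by rw [finrank_euclideanSpace_fin]; linarith)
  refine h.congr (Eventually.of_forall fun x => ?_)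
  have h0 : (0 : ℝ) ≤ 1 + ‖x‖ := by positivity
  change (1 + ‖x‖) ^ (-((d : ℝ) + 1)) = ((1 + ‖x‖) ^ (d + 1))⁻¹
  rw [Real.rpow_neg h0, ← Real.rpow_natCast (1 + ‖x‖) (d + 1)]
  push_cast
  rfl

theorem Fk_int (hL : T_LAT) (P q : ℕ) : ∃ (A : ℝ) (M : ℕ), 0 ≤ A ∧
    ∀ (k : Fin d → ℤ) (f : S d), Integrable (fun x => ‖iteratedFDeriv ℝ q (Fk k f) x‖) ∧
      (1 + ‖lat k‖) ^ P * ∫ x, ‖iteratedFDeriv ℝ q (Fk k f) x‖ ≤ A * pm M f := by
  obtain ⟨A, M, hA, hb⟩ := prod_bound (d := d) hL P q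
  set I : ℝ := ∫ x : V d, ((1 + ‖x‖) ^ (d + 1))⁻¹ with hI
  have hI0 : 0 ≤ I := integral_nonneg fun x => by positivity
  refine ⟨A * I, M, mul_nonneg hA hI0, fun k f => ?_⟩
  have hk : 0 < (1 + ‖lat k‖) ^ P := by positivity
  have h1 : ∀ x : V d, ‖iteratedFDeriv ℝ q (Fk k f) x‖ ≤
      A * pm M f / (1 + ‖lat k‖) ^ P * ((1 + ‖x‖) ^ (d + 1))⁻¹ := by
    intro x
    have h2 := hb k f x
    have hx : 0 < (1 + ‖x‖) ^ (d + 1) := by positivity
    rw [Fk_norm hL, ← div_eq_mul_inv, le_div_iff₀ hx, le_div_iff₀ hk]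
    calc _ = (1 + ‖lat k‖) ^ P * ((1 + ‖x‖) ^ (d + 1) *
          ‖iteratedFDeriv ℝ q (fun x => cell t₀ k x * f x) x‖) := by ring
      _ ≤ _ := h2
  have h3 : Continuous (fun x => ‖iteratedFDeriv ℝ q (Fk k f) x‖) :=
    ((Fk_smooth hL k f).continuous_iteratedFDeriv (by exact_mod_cast le_top)).norm
  have h4 : Integrable fun x : V d =>
      A * pm M f / (1 + ‖lat k‖) ^ P * ((1 + ‖x‖) ^ (d + 1))⁻¹ := int_one_add.const_mul _
  have h5 : Integrable (fun x => ‖iteratedFDeriv ℝ q (Fk k f) x‖) := by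
    refine h4.mono' h3.aestronglyMeasurable (Eventually.of_forall fun x => ?_)
    rw [norm_norm]
    exact h1 x
  refine ⟨h5, ?_⟩
  have h6 := integral_mono h5 h4 h1
  rw [integral_const_mul] at h6
  calc (1 + ‖lat k‖) ^ P * ∫ x, ‖iteratedFDeriv ℝ q (Fk k f) x‖ ≤
        (1 + ‖lat k‖) ^ P * (A * pm M f / (1 + ‖lat k‖) ^ P * I) :=
        mul_le_mul_of_nonneg_left h6 hk.le
    _ = A * I * pm M f := by
        field_simp

theorem coef_bound (hL : T_LAT) (n : ℕ) : ∃ (A : ℝ) (M : ℕ), 0 ≤ A ∧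
    ∀ (k : Fin d → ℤ) (f : S d) (w : V d),
      (1 + ‖lat k‖) ^ n * ((1 + ‖w‖) ^ n * ‖𝓕 (Fk k f) w‖) ≤ A * pm M f := by
  choose A M hA hb using fun q => Fk_int (d := d) hL n q
  set M₀ : ℕ := (Finset.range (n + 1)).sup M with hM₀
  set B : ℝ := 2 ^ n * (A 0 + 2 ^ n * ∑ q ∈ Finset.range (n + 1), A q) with hB
  have hA0 : 0 ≤ ∑ q ∈ Finset.range (n + 1), A q := Finset.sum_nonneg fun q _ => hA q
  have hA00 := hA 0
  have hB0 : 0 ≤ B := by positivity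
  refine ⟨B, M₀, hB0, fun k f w => ?_⟩
  have hk : 0 < (1 + ‖lat k‖) ^ n := by positivity
  have hq : ∀ q ∈ Finset.range (n + 1),
      (1 + ‖lat k‖) ^ n * ∫ x, ‖iteratedFDeriv ℝ q (Fk k f) x‖ ≤ A q * pm M₀ f := by
    intro q hq
    refine ((hb q k f).2).trans (mul_le_mul_of_nonneg_left (pm_mono ?_ f) (hA q))
    exact Finset.le_sup (f := M) hq
  have hint : ∀ (k' n' : ℕ), (k' : ℕ∞) ≤ (0 : ℕ∞) → (n' : ℕ∞) ≤ (⊤ : ℕ∞) →
      Integrable (fun v => ‖v‖ ^ k' * ‖iteratedFDeriv ℝ n' (Fk k f) v‖) := by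
    intro k' n' hk' _
    have : k' = 0 := by
      have := nonpos_iff_eq_zero.1 hk'
      exact_mod_cast this
    subst this
    simp only [pow_zero, one_mul]
    exact (hb n' k f).1
  have hF : ContDiff ℝ ((⊤ : ℕ∞) : WithTop ℕ∞) (Fk k f) := Fk_smooth hL k f
  have h1 : ‖w‖ ^ n * ‖𝓕 (Fk k f) w‖ ≤
      2 ^ n * ∑ q ∈ Finset.range (n + 1), ∫ x, ‖iteratedFDeriv ℝ q (Fk k f) x‖ := by
    have := Real.pow_mul_norm_iteratedFDeriv_fourier_le hF hint (k := 0) (n := n) le_rfl le_top w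
    rw [norm_iteratedFDeriv_zero] at this
    refine this.trans (le_of_eq ?_)
    rw [Finset.sum_product]
    simp
  have h2 : ‖𝓕 (Fk k f) w‖ ≤ ∫ x, ‖iteratedFDeriv ℝ 0 (Fk k f) x‖ := by
    have := Real.pow_mul_norm_iteratedFDeriv_fourier_le hF hint (k := 0) (n := 0) le_rfl le_top w
    rw [norm_iteratedFDeriv_zero] at this
    refine (le_trans (le_of_eq ?_) this).trans (le_of_eq ?_)
    · simp
    · rw [Finset.sum_product]
      simp
  have h3 : (1 + ‖w‖) ^ n ≤ 2 ^ n * (1 + ‖w‖ ^ n) := by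
    have := add_pow_le zero_le_one (norm_nonneg w) n
    rw [one_pow] at this
    refine this.trans (mul_le_mul_of_nonneg_right ?_ (by positivity))
    exact pow_le_pow_right₀ (by norm_num) (Nat.sub_le n 1)
  have h4 : (1 + ‖lat k‖) ^ n * ‖𝓕 (Fk k f) w‖ ≤ A 0 * pm M₀ f :=
    (mul_le_mul_of_nonneg_left h2 hk.le).trans (hq 0 (Finset.mem_range.2 (by omega)))
  have h5 : (1 + ‖lat k‖) ^ n * (‖w‖ ^ n * ‖𝓕 (Fk k f) w‖) ≤
      2 ^ n * ((∑ q ∈ Finset.range (n + 1), A q) * pm M₀ f) := by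
    calc (1 + ‖lat k‖) ^ n * (‖w‖ ^ n * ‖𝓕 (Fk k f) w‖) ≤ (1 + ‖lat k‖) ^ n *
          (2 ^ n * ∑ q ∈ Finset.range (n + 1), ∫ x, ‖iteratedFDeriv ℝ q (Fk k f) x‖) :=
          mul_le_mul_of_nonneg_left h1 hk.le
      _ = 2 ^ n * ∑ q ∈ Finset.range (n + 1),
            (1 + ‖lat k‖) ^ n * ∫ x, ‖iteratedFDeriv ℝ q (Fk k f) x‖ := by
          rw [← Finset.mul_sum]
          ring
      _ ≤ 2 ^ n * ∑ q ∈ Finset.range (n + 1), A q * pm M₀ f :=
          mul_le_mul_of_nonneg_left (Finset.sum_le_sum hq) (by positivity)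
      _ = _ := by rw [Finset.sum_mul]
  calc (1 + ‖lat k‖) ^ n * ((1 + ‖w‖) ^ n * ‖𝓕 (Fk k f) w‖) ≤
        (1 + ‖lat k‖) ^ n * (2 ^ n * (1 + ‖w‖ ^ n) * ‖𝓕 (Fk k f) w‖) := by gcongr
    _ = 2 ^ n * ((1 + ‖lat k‖) ^ n * ‖𝓕 (Fk k f) w‖ +
          (1 + ‖lat k‖) ^ n * (‖w‖ ^ n * ‖𝓕 (Fk k f) w‖)) := by ring
    _ ≤ 2 ^ n * (A 0 * pm M₀ f + 2 ^ n * ((∑ q ∈ Finset.range (n + 1), A q) * pm M₀ f)) :=
        mul_le_mul_of_nonneg_left (add_le_add h4 h5) (by positivity)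
    _ = B * pm M₀ f := by
        rw [hB]
        ring

end Pool.Agent.H10.UDP
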